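import Pool.Agent.Helper56.RZ.GoalsA

/-!
# Project RZ, packet QP: projections
-/

set_option autoImplicit false

namespace Pool.Agent.Helper41.RZ

open Pool.Agent.Helper56.RZ

/-- algebra of the projection `q = U F V` -/
theorem qp_alg {A : Type*} [Ring A] (T F G Φ Ψ V Z Z' : A)
    (hT : T * T = T) (hF : F * F = F) (hG : G * G = G) (hFG : F * G = 0) (hGF : G * F = 0)
    (hFGT : F + G = T) (hΦ : Φ * Φ = Φ) (hΨ : Ψ * Ψ = Ψ) (hTΦ : T * Φ = Φ) (hTΨ : T * Ψ = Ψ)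
    (hVW : V * (Φ * F + Ψ * G + 1 - T) = 1) (hWV : (Φ * F + Ψ * G + 1 - T) * V = 1)
    (hZ : Φ = Φ * F * Z) (hZ' : Ψ = Ψ * G * Z') :
    (Φ * F + Ψ * G) * F * V * ((Φ * F + Ψ * G) * F * V) = (Φ * F + Ψ * G) * F * V ∧
    T * ((Φ * F + Ψ * G) * F * V) = (Φ * F + Ψ * G) * F * V ∧
    (Φ * F + Ψ * G) * F * V * T = (Φ * F + Ψ * G) * F * V ∧
    Φ * ((Φ * F + Ψ * G) * F * V) = (Φ * F + Ψ * G) * F * V ∧
    (Φ * F + Ψ * G) * F * V * Φ = Φ ∧
    (Φ * F + Ψ * G) * F * V * Ψ = 0 ∧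
    Ψ * (T - (Φ * F + Ψ * G) * F * V) = T - (Φ * F + Ψ * G) * F * V ∧
    (Φ * F + Ψ * G) * F * V - F = (Φ - F) * F * V + F * (V - 1) := by
  have hFT : F * T = F := by rw [← hFGT, mul_add, hF, hFG, add_zero]
  have hGT : G * T = G := by rw [← hFGT, mul_add, hGF, hG, zero_add]
  have hTF : T * F = F := by rw [← hFGT, add_mul, hF, hGF, add_zero]
  have hTG : T * G = G := by rw [← hFGT, add_mul, hFG, hG, zero_add]
  set U := Φ * F + Ψ * G with hU
  have hUT : U * T = U := by rw [hU, add_mul, mul_assoc, hFT, mul_assoc, hGT]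
  have hTU : T * U = U := by rw [hU, mul_add, ← mul_assoc, hTΦ, ← mul_assoc, hTΨ]
  have hUF : U * F = Φ * F := by
    rw [hU, add_mul, mul_assoc, hF, mul_assoc, hGF, mul_zero, add_zero]
  have hUG : U * G = Ψ * G := by
    rw [hU, add_mul, mul_assoc, hFG, mul_zero, zero_add, mul_assoc, hG]
  have hWT : (U + 1 - T) * T = U := by rw [sub_mul, add_mul, hUT, one_mul, hT]; abel
  have hTW : T * (U + 1 - T) = U := by rw [mul_sub, mul_add, hTU, mul_one, hT]; abel
  have hVU : V * U = T := by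
    calc V * U = V * ((U + 1 - T) * T) := by rw [hWT]
      _ = (V * (U + 1 - T)) * T := by rw [mul_assoc]
      _ = T := by rw [hVW, one_mul]
  have hUV : U * V = T := by
    calc U * V = (T * (U + 1 - T)) * V := by rw [hTW]
      _ = T * ((U + 1 - T) * V) := by rw [mul_assoc]
      _ = T := by rw [hWV, mul_one]
  have hVT : V * T = T * V := by
    calc V * T = V * (U * V) := by rw [hUV]
      _ = (V * U) * V := by rw [mul_assoc]
      _ = T * V := by rw [hVU]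
  have hqU : ∀ X, U * F * V * (U * X) = U * F * X := by
    intro X
    calc U * F * V * (U * X) = U * (F * ((V * U) * X)) := by simp only [mul_assoc]
      _ = U * (F * (T * X)) := by rw [hVU]
      _ = U * ((F * T) * X) := by simp only [mul_assoc]
      _ = U * F * X := by rw [hFT, mul_assoc]
  refine ⟨?_, ?_, ?_, ?_, ?_, ?_, ?_, ?_⟩
  · have h := hqU (F * V)
    calc U * F * V * (U * F * V) = U * F * V * (U * (F * V)) := by simp only [mul_assoc]
      _ = U * F * (F * V) := h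
      _ = U * (F * F) * V := by simp only [mul_assoc]
      _ = U * F * V := by rw [hF]
  · calc T * (U * F * V) = (T * U) * F * V := by simp only [mul_assoc]
      _ = U * F * V := by rw [hTU]
  · calc U * F * V * T = U * F * (V * T) := by simp only [mul_assoc]
      _ = U * F * (T * V) := by rw [hVT]
      _ = U * (F * T) * V := by simp only [mul_assoc]
      _ = U * F * V := by rw [hFT]
  · calc Φ * (U * F * V) = Φ * ((U * F) * V) := by simp only [mul_assoc]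
      _ = Φ * (Φ * F * V) := by rw [hUF]
      _ = (Φ * Φ) * F * V := by simp only [mul_assoc]
      _ = U * F * V := by rw [hΦ, hUF]
  · calc U * F * V * Φ = U * F * V * (Φ * F * Z) := by rw [← hZ]
      _ = U * F * V * (U * (F * Z)) := by
          congr 1
          calc Φ * F * Z = (U * F) * Z := by rw [hUF]
            _ = U * (F * Z) := by rw [mul_assoc]
      _ = U * F * (F * Z) := hqU _
      _ = (U * (F * F)) * Z := by simp only [mul_assoc]
      _ = Φ * F * Z := by rw [hF, hUF]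
      _ = Φ := hZ.symm
  · calc U * F * V * Ψ = U * F * V * (Ψ * G * Z') := by rw [← hZ']
      _ = U * F * V * (U * (G * Z')) := by
          congr 1
          calc Ψ * G * Z' = (U * G) * Z' := by rw [hUG]
            _ = U * (G * Z') := by rw [mul_assoc]
      _ = U * F * (G * Z') := hqU _
      _ = U * ((F * G) * Z') := by simp only [mul_assoc]
      _ = 0 := by rw [hFG, zero_mul, mul_zero]
  · have h1 : T - U * F * V = Ψ * G * V := by
      rw [hUF, ← hUV, hU, add_mul]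
      abel
    rw [h1]
    calc Ψ * (Ψ * G * V) = (Ψ * Ψ) * G * V := by simp only [mul_assoc]
      _ = Ψ * G * V := by rw [hΨ]
  · rw [hUF, sub_mul, hF, sub_mul, mul_sub, mul_one]
    abel

/-- projections which are close: `P = P Q Z` -/
theorem close_proj {K : ℕ} (P Q : End K) (hP : P * P = P) (hQ : Q * Q = Q)
    (h : ‖P‖ * ‖Q - P‖ + ‖P - Q‖ * ‖Q‖ < 1) : ∃ Z : End K, P = P * Q * Z := by
  have h1 : P * Q + (1 - P) * (1 - Q) = 1 - (P * (P - Q) + (Q - P) * Q) := by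
    have : P * (P - Q) + (Q - P) * Q = P + Q - P * Q - P * Q := by
      rw [mul_sub, sub_mul, hP, hQ]
      abel
    rw [this]
    simp only [sub_mul, mul_sub, one_mul, mul_one]
    abel
  have h2 : ‖P * (P - Q) + (Q - P) * Q‖ < 1 := by
    refine lt_of_le_of_lt ?_ h
    refine (norm_add_le _ _).trans ?_
    have e1 : ‖P * (P - Q)‖ ≤ ‖P‖ * ‖Q - P‖ := by
      refine (norm_mul_le _ _).trans (le_of_eq ?_)
      rw [norm_sub_rev]
    have e2 : ‖(Q - P) * Q‖ ≤ ‖P - Q‖ * ‖Q‖ := by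
      refine (norm_mul_le _ _).trans (le_of_eq ?_)
      rw [norm_sub_rev]
    linarith
  have h3 : IsUnit (P * Q + (1 - P) * (1 - Q)) := by
    rw [h1]
    exact isUnit_one_sub_of_norm_lt_one h2
  obtain ⟨u, hu⟩ := h3
  refine ⟨((u⁻¹ : (End K)ˣ) : End K), ?_⟩
  have h4 : P * (u : End K) = P * Q := by
    have h5 : P * (1 - P) = 0 := by rw [mul_sub, mul_one, hP, sub_self]
    rw [hu, mul_add, ← mul_assoc, hP, ← mul_assoc, h5, zero_mul, add_zero]
  calc P = P * ((u : End K) * ((u⁻¹ : (End K)ˣ) : End K)) := by rw [Units.mul_inv, mul_one]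
    _ = P * (u : End K) * ((u⁻¹ : (End K)ˣ) : End K) := by rw [mul_assoc]
    _ = P * Q * ((u⁻¹ : (End K)ˣ) : End K) := by rw [h4]

/-- PACKET QP -/
theorem qp : StmtQP := by
  intro K R
  set R' : ℝ := |R| + 1 with hR'
  have hR'1 : 1 ≤ R' := by
    have := abs_nonneg R
    linarith
  have hRR' : R ≤ R' := by
    have := le_abs_self R
    linarith
  refine ⟨1 / (8 * R'), 4 * R' + 4 * R' ^ 2, by positivity, by positivity, ?_⟩
  intro T F G Φ Ψ κ hT hF hG hFG hGF hFGT hΦ hΨ hTΦ hΦT hTΨ hΨT hnF hnG hnT hκ hΦF hΨG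
  have hκ0 : 0 ≤ κ := (norm_nonneg _).trans hΦF
  have hκR : κ * (8 * R') ≤ 1 := by
    rw [le_div_iff₀ (by positivity)] at hκ
    exact hκ
  have hκ8 : κ ≤ 1 / 8 := by nlinarith
  have hF' : ‖F‖ ≤ R' := hnF.trans hRR'
  have hG' : ‖G‖ ≤ R' := hnG.trans hRR'
  have hΦn : ‖Φ‖ ≤ R' + κ := by
    calc ‖Φ‖ = ‖(Φ - F) + F‖ := by rw [sub_add_cancel]
      _ ≤ ‖Φ - F‖ + ‖F‖ := norm_add_le _ _
      _ ≤ R' + κ := by linarith
  have hΨn : ‖Ψ‖ ≤ R' + κ := by
    calc ‖Ψ‖ = ‖(Ψ - G) + G‖ := by rw [sub_add_cancel]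
      _ ≤ ‖Ψ - G‖ + ‖G‖ := norm_add_le _ _
      _ ≤ R' + κ := by linarith
  obtain ⟨Z, hZ⟩ := close_proj Φ F hΦ hF (by
    have h1 : ‖F - Φ‖ ≤ κ := by rw [norm_sub_rev]; exact hΦF
    have h2 : ‖Φ‖ * ‖F - Φ‖ ≤ (R' + κ) * κ :=
      mul_le_mul hΦn h1 (norm_nonneg _) (by linarith)
    have h3 : ‖Φ - F‖ * ‖F‖ ≤ κ * R' := mul_le_mul hΦF hF' (norm_nonneg _) hκ0
    nlinarith)
  obtain ⟨Z', hZ'⟩ := close_proj Ψ G hΨ hG (by
    have h1 : ‖G - Ψ‖ ≤ κ := by rw [norm_sub_rev]; exact hΨG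
    have h2 : ‖Ψ‖ * ‖G - Ψ‖ ≤ (R' + κ) * κ :=
      mul_le_mul hΨn h1 (norm_nonneg _) (by linarith)
    have h3 : ‖Ψ - G‖ * ‖G‖ ≤ κ * R' := mul_le_mul hΨG hG' (norm_nonneg _) hκ0
    nlinarith)
  set D : End K := (F - Φ) * F + (G - Ψ) * G with hD
  have hWD : Φ * F + Ψ * G + 1 - T = 1 - D := by
    rw [hD, sub_mul, sub_mul, hF, hG, ← hFGT]
    abel
  have hDn : ‖D‖ ≤ 2 * R' * κ := by
    have h1 : ‖(F - Φ) * F‖ ≤ κ * R' := by
      refine (norm_mul_le _ _).trans ?_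
      rw [norm_sub_rev]
      exact mul_le_mul hΦF hF' (norm_nonneg _) hκ0
    have h2 : ‖(G - Ψ) * G‖ ≤ κ * R' := by
      refine (norm_mul_le _ _).trans ?_
      rw [norm_sub_rev]
      exact mul_le_mul hΨG hG' (norm_nonneg _) hκ0
    have h3 := norm_add_le ((F - Φ) * F) ((G - Ψ) * G)
    linarith
  have hDhalf : ‖D‖ ≤ 1 / 2 := by nlinarith
  have hunit : IsUnit (Φ * F + Ψ * G + 1 - T) := by
    rw [hWD]
    exact isUnit_one_sub_of_norm_lt_one (by linarith)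
  have hVW := Ring.inverse_mul_cancel _ hunit
  have hWV := Ring.mul_inverse_cancel _ hunit
  set V : End K := Ring.inverse (Φ * F + Ψ * G + 1 - T) with hV
  obtain ⟨a1, a2, a3, a4, a5, a6, a7, a8⟩ := qp_alg T F G Φ Ψ V Z Z' hT hF hG hFG hGF hFGT hΦ hΨ
    hTΦ hTΨ hVW hWV hZ hZ'
  have h1n : ‖(1 : End K)‖ ≤ 1 := ContinuousLinearMap.norm_id_le
  have hV1 : V - 1 = V * D := by
    rw [hWD, mul_sub, mul_one] at hVW
    rw [← hVW]
    abel
  have hVn : ‖V‖ ≤ 2 := by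
    have h1 : ‖V‖ ≤ ‖V * D‖ + ‖(1 : End K)‖ := by
      calc ‖V‖ = ‖V * D + 1‖ := by rw [← hV1, sub_add_cancel]
        _ ≤ _ := norm_add_le _ _
    have h2 : ‖V * D‖ ≤ ‖V‖ * (1 / 2) :=
      (norm_mul_le _ _).trans (mul_le_mul_of_nonneg_left hDhalf (norm_nonneg _))
    linarith
  have hV1n : ‖V - 1‖ ≤ 4 * R' * κ := by
    rw [hV1]
    refine (norm_mul_le _ _).trans ?_
    have := mul_le_mul hVn hDn (norm_nonneg _) (by norm_num)
    linarith
  refine ⟨hunit, a1, a2, a3, a4, a5, a6, a7, ?_⟩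
  show ‖(Φ * F + Ψ * G) * F * V - F‖ ≤ _
  rw [a8]
  refine (norm_add_le _ _).trans ?_
  have h1 : ‖(Φ - F) * F * V‖ ≤ κ * R' * 2 := by
    refine (norm_mul_le _ _).trans ?_
    refine mul_le_mul ?_ hVn (norm_nonneg _) (by positivity)
    refine (norm_mul_le _ _).trans ?_
    exact mul_le_mul hΦF hF' (norm_nonneg _) hκ0
  have h2 : ‖F * (V - 1)‖ ≤ R' * (4 * R' * κ) := by
    refine (norm_mul_le _ _).trans ?_
    exact mul_le_mul hF' hV1n (norm_nonneg _) (by positivity)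
  nlinarith [mul_nonneg hκ0 (by linarith : (0 : ℝ) ≤ R')]

end Pool.Agent.Helper41.RZ
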