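import Pool.Agent.Helper56.RZ.GoalsC
import Pool.Agent.Helper85.RZ.NP

/-! # RZ2, packet NM: almost every point is not periodic -/

set_option autoImplicit false

open Set Filter Topology MeasureTheory

open scoped ContDiff

namespace Pool.Agent.Helper41.RZ

open Pool.Agent.Helper56.RZ

section key

variable {N K : ℕ} {M : Set (E K)}

theorem meas (c : Chart N K M) (F : E K → E K) (hd : DifferentiableOn ℝ F M) :
    MeasurableSet {z | z ∈ c.V ∧ F (c.ψ z) = c.ψ z} := by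
  have h1 : ContinuousOn c.ψ c.V := c.smoothψ.continuousOn
  have h2 : ContinuousOn (fun z => F (c.ψ z) - c.ψ z) c.V :=
    (hd.continuousOn.comp h1 fun z hz => (c.mapsψ z hz).1).sub h1
  obtain ⟨u, hu, hu2⟩ := continuousOn_iff_isClosed.1 h2 {0} isClosed_singleton
  have h3 : {z | z ∈ c.V ∧ F (c.ψ z) = c.ψ z} = u ∩ c.V := by
    rw [← hu2]
    ext z
    simp only [mem_ofPred_eq, mem_inter_iff, mem_preimage, mem_singleton_iff, sub_eq_zero]
    tauto
  rw [h3]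
  exact hu.measurableSet.inter c.openV.measurableSet

theorem hder (c : Chart N K M) (F : E K → E K) (hd : DifferentiableOn ℝ F M) (z : E N)
    (hz : z ∈ c.V) (hF : F (c.ψ z) = c.ψ z) :
    HasFDerivAt (c.φ ∘ F ∘ c.ψ) ((fderiv ℝ c.φ (c.ψ z)) ∘L
      ((fderivWithin ℝ F M (c.ψ z)) ∘L (fderiv ℝ c.ψ z))) z := by
  have hx := c.mapsψ z hz
  have h1 : HasFDerivAt c.ψ (fderiv ℝ c.ψ z) z :=
    (((c.smoothψ.contDiffAt (c.openV.mem_nhds hz)).differentiableAt (by simp))).hasFDerivAt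
  have h2 : HasFDerivWithinAt F (fderivWithin ℝ F M (c.ψ z)) M (c.ψ z) :=
    (hd _ hx.1).hasFDerivWithinAt
  have h3 : HasFDerivAt c.φ (fderiv ℝ c.φ (F (c.ψ z))) (F (c.ψ z)) := by
    rw [hF]
    exact (((c.smoothφ.contDiffAt (c.openW.mem_nhds hx.2)).differentiableAt
      (by simp))).hasFDerivAt
  have h4 : HasFDerivWithinAt (F ∘ c.ψ) ((fderivWithin ℝ F M (c.ψ z)) ∘L (fderiv ℝ c.ψ z))
      c.V z := h2.comp z h1.hasFDerivWithinAt fun y hy => (c.mapsψ y hy).1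
  have h5 := h4.hasFDerivAt (c.openV.mem_nhds hz)
  have h6 := h3.comp z h5
  rw [hF] at h6
  exact h6

theorem key (h1 : StmtT1) (h2 : StmtT2) (c : Chart N K M) (F : E K → E K) (hm : MapsTo F M M)
    (hd : DifferentiableOn ℝ F M) :
    ∀ᵐ z ∂((volume : Measure (E N)).restrict {z | z ∈ c.V ∧ F (c.ψ z) = c.ψ z}),
      der M F (c.ψ z) = Pi M (c.ψ z) := by
  have hS := meas c F hd
  set S : Set (E N) := {z | z ∈ c.V ∧ F (c.ψ z) = c.ψ z} with hSd
  have hG : ∀ z ∈ S, (c.φ ∘ F ∘ c.ψ) z = z := fun z hz => by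
    change c.φ (F (c.ψ z)) = z
    rw [hz.2, c.left z hz.1]
  have hap : ApproximatesLinearOn (c.φ ∘ F ∘ c.ψ) (1 : E N →L[ℝ] E N) S 0 := by
    intro x hx y hy
    rw [hG x hx, hG y hy]
    simp
  have h3 := hap.norm_fderiv_sub_le (μ := volume) hS
    (fun z => (fderiv ℝ c.φ (c.ψ z)) ∘L
      ((fderivWithin ℝ F M (c.ψ z)) ∘L (fderiv ℝ c.ψ z)))
    (fun z hz => (hder c F hd z hz.1 hz.2).hasFDerivWithinAt)
  filter_upwards [h3, ae_restrict_mem hS] with z hz hzS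
  have e1 : (fderiv ℝ c.φ (c.ψ z)) ∘L ((fderivWithin ℝ F M (c.ψ z)) ∘L (fderiv ℝ c.ψ z))
      = (1 : E N →L[ℝ] E N) := by
    have : ‖(fderiv ℝ c.φ (c.ψ z)) ∘L ((fderivWithin ℝ F M (c.ψ z)) ∘L (fderiv ℝ c.ψ z)) - 1‖₊
        = 0 := le_antisymm hz bot_le
    rw [nnnorm_eq_zero, sub_eq_zero] at this
    exact this
  have hxM := (c.mapsψ z hzS.1).1
  obtain ⟨x, hx⟩ : ∃ x, x = c.ψ z := ⟨_, rfl⟩
  have t1 := (h1 N K M c z hzS.1).2.2
  have t2 := (h2 K M F F (c.ψ z) hxM).2.1 hm (hd _ hxM)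
  rw [hzS.2] at t2
  obtain ⟨Dψ, hDψ⟩ : ∃ D, D = fderiv ℝ c.ψ z := ⟨_, rfl⟩
  obtain ⟨Dφ, hDφ⟩ : ∃ D, D = fderiv ℝ c.φ (c.ψ z) := ⟨_, rfl⟩
  obtain ⟨A, hA⟩ : ∃ D, D = fderivWithin ℝ F M (c.ψ z) := ⟨_, rfl⟩
  obtain ⟨Q, hQ⟩ : ∃ D, D = Pi M (c.ψ z) := ⟨_, rfl⟩
  have hD : der M F (c.ψ z) = A * Q := by rw [hA, hQ]; rfl
  rw [hD, ← hQ] at t2 ⊢
  rw [← hDψ, ← hDφ, ← hQ] at t1
  rw [← hDψ, ← hDφ, ← hA] at e1
  have t1' : ∀ v, Dψ (Dφ (Q v)) = Q v := fun v => by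
    have := congrArg (fun L : E K →L[ℝ] E K => L v) t1
    exact this
  have t2' : ∀ v, Q (A (Q v)) = A (Q v) := fun v => by
    have := congrArg (fun L : E K →L[ℝ] E K => L v) t2
    exact this
  have e1' : ∀ v, Dφ (A (Dψ v)) = v := fun v => by
    have := congrArg (fun L : E N →L[ℝ] E N => L v) e1
    exact this
  refine ContinuousLinearMap.ext fun v => ?_
  change A (Q v) = Q v
  rw [← t2' v, ← t1' (A (Q v)), t2' v]
  have : A (Q v) = A (Dψ (Dφ (Q v))) := by rw [t1']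
  rw [this, e1', t1']

end key

theorem nm (h1 : StmtT1) (h2 : StmtT2) : StmtNM := by
  intro N K M m f f' P hS hd hp
  obtain ⟨n, hn1, hn⟩ := hp.dom
  have hn' : ∀ x ∈ M, ∀ v, P 2 x v = v → v ≠ 0 → ‖der M (f'^[n]) x v‖ < ‖v‖ :=
    fun x hx => (hn x hx).2.1
  -- the derivative of a return is not the identity
  have hne : ∀ j : ℕ, ∀ x ∈ M, der M (f'^[n * (j + 1)]) x ≠ Pi M x := by
    intro j x hx he
    obtain ⟨w, hw⟩ : ∃ w, P 2 x w ≠ 0 := by
      by_contra hc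
      push Not at hc
      exact hp.ne x hx 2 (ContinuousLinearMap.ext hc)
    have hv1 : P 2 x (P 2 x w) = P 2 x w := by
      have e1 := hp.proj x hx 2 2
      rw [if_pos rfl] at e1
      exact congrArg (fun T : End K => T w) e1
    have hlt := Pool.Agent.Helper85.RZ.contr h2 hd hp n hn' j x hx (P 2 x w) hv1 hw
    rw [he] at hlt
    have e3 : Pi M x (P 2 x w) = P 2 x w := by
      have e1 := Pool.Agent.Helper85.RZ.PiP hp x hx 2
      exact congrArg (fun T : End K => T w) e1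
    rw [e3] at hlt
    exact lt_irrefl _ hlt
  -- one chart
  have hch : ∀ j : ℕ, ∀ c : Chart N K M,
      (∀ A : Set (E N), MeasurableSet A → A ⊆ c.V → m (c.ψ '' A) = volume A) →
      m {x | x ∈ M ∩ c.W ∧ f^[j + 1] x = x} = 0 := by
    intro j c hc
    obtain ⟨F, hF⟩ : ∃ F, F = f'^[n * (j + 1)] := ⟨_, rfl⟩
    have hFm : MapsTo F M M := hF ▸ hd.maps'.iterate _
    have hFd : DifferentiableOn ℝ F M := hF ▸
      (Pool.Agent.Helper85.RZ.diff' hd).iterate hd.maps' _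
    have hk := key h1 h2 c F hFm hFd
    have hmeas := meas c F hFd
    have h0 : volume {z | z ∈ c.V ∧ F (c.ψ z) = c.ψ z} = 0 := by
      have h3 : ∀ᵐ z ∂((volume : Measure (E N)).restrict {z | z ∈ c.V ∧ F (c.ψ z) = c.ψ z}),
          False := by
        filter_upwards [hk, ae_restrict_mem hmeas] with z hz hzS
        rw [hF] at hz
        exact hne j _ (c.mapsψ z hzS.1).1 hz
      have h4 := ae_iff.1 h3
      simp only [not_false_eq_true, ofPred_true, Measure.restrict_apply_univ] at h4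
      exact h4
    have h5 := hc _ hmeas (fun z hz => hz.1)
    rw [h0] at h5
    refine measure_mono_null (fun x hx => ?_) h5
    obtain ⟨⟨hxM, hxW⟩, hfx⟩ := hx
    refine ⟨c.φ x, ⟨c.mapsφ x ⟨hxM, hxW⟩, ?_⟩, c.right x ⟨hxM, hxW⟩⟩
    rw [c.right x ⟨hxM, hxW⟩, hF]
    have e1 : f^[n * (j + 1)] x = x := by
      rw [mul_comm, Function.iterate_mul]
      exact Function.iterate_fixed hfx n
    have e2 := Pool.Agent.Helper85.RZ.iter_left hd (n * (j + 1)) x hxM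
    rw [e1] at e2
    exact e2
  rw [ae_all_iff]
  intro j
  rcases Nat.eq_zero_or_pos j with rfl | hj
  · exact Filter.Eventually.of_forall fun x h => absurd h (by norm_num)
  obtain ⟨i, rfl⟩ : ∃ i, j = i + 1 := ⟨j - 1, by omega⟩
  choose c hc using hS.chart
  have hcov : ∃ t : Finset M, M ⊆ ⋃ x ∈ t, (c x.1 x.2).W := by
    refine hS.compact.elim_finite_subcover (fun x : M => (c x.1 x.2).W)
      (fun x => (c x.1 x.2).openW) fun x hx => ?_
    exact mem_iUnion.2 ⟨⟨x, hx⟩, (hc x hx).1⟩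
  obtain ⟨t, ht⟩ := hcov
  have hU : m (Mᶜ ∪ ⋃ x ∈ t, {y | y ∈ M ∩ (c x.1 x.2).W ∧ f^[i + 1] y = y}) = 0 := by
    rw [measure_union_null_iff]
    refine ⟨hS.null, ?_⟩
    exact (measure_biUnion_null_iff t.countable_toSet).2 fun x _ => hch i _ (hc x.1 x.2).2
  rw [ae_iff]
  refine measure_mono_null (fun x hx => ?_) hU
  have hx2 : f^[i + 1] x = x := by
    simp only [mem_ofPred_eq, Classical.not_imp, not_not] at hx
    exact hx.2
  by_cases hxM : x ∈ M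
  · right
    obtain ⟨y, hy, hy2⟩ := mem_iUnion₂.1 (ht hxM)
    exact mem_iUnion₂.2 ⟨y, hy, ⟨hxM, hy2⟩, hx2⟩
  · left
    exact hxM

end Pool.Agent.Helper41.RZ
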